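import Pool.Agent.H68.GP.Targets
import Pool.Agent.H68.AC.Final

/-!
# Gap-SETH for constant-depth circuits: the bad event for a set of labelled constraints (BLL)
-/

namespace Pool.Agent.H68.GP

open Finset Pool.Agent.H68.AC

section

variable {k r : ℕ} {A G : Type} [DecidableEq A] [DecidableEq G]

theorem kl_inj (e : Fin k → Fin r → Fin k) (x : Fin k → A) :
    Function.Injective (fun c : Fin k × G => ((pos e x c.1, c.2) : VL k r A G)) := by
  rintro ⟨i, c⟩ ⟨j, c'⟩ h
  simp only [Prod.mk.injEq] at h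
  obtain ⟨h1, h2⟩ := h
  have h3 : i = j := congrArg Prod.fst h1
  rw [h3, h2]

theorem KL_card (e : Fin k → Fin r → Fin k) (x : Fin k → A) (Λ : Finset (Fin k × G)) :
    (KL e x Λ).card = Λ.card := Finset.card_image_of_injective _ (kl_inj e x)

theorem mem_KL (e : Fin k → Fin r → Fin k) (x : Fin k → A) (Λ : Finset (Fin k × G)) (v : VL k r A G) :
    v ∈ KL e x Λ ↔ ∃ c ∈ Λ, (pos e x c.1, c.2) = v := by
  simp only [KL, mem_image]

theorem bcl [Fintype A] (e : Fin k → Fin r → Fin k) (Λ : Finset (Fin k × G))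
    (F : Finset (VL k r A G) → ℝ) (hF : ∀ P, 0 ≤ F P) :
    ∑ x : Fin k → A, F (KL e x Λ) ≤
    (Fintype.card A : ℝ) ^ (k - (VSL e Λ).card) * ∑ P ∈ univ.image (fun x : Fin k → A => KL e x Λ), F P := by
  have h1 : ∑ x : Fin k → A, F (KL e x Λ) = ∑ P ∈ univ.image (fun x : Fin k → A => KL e x Λ),
      ∑ x ∈ univ.filter (fun x : Fin k → A => KL e x Λ = P), F (KL e x Λ) := by
    rw [Finset.sum_fiberwise_of_maps_to]
    intro x _
    exact Finset.mem_image_of_mem _ (mem_univ _)
  rw [h1, Finset.mul_sum]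
  refine Finset.sum_le_sum (fun P hP => ?_)
  have h2 : ∑ x ∈ univ.filter (fun x : Fin k → A => KL e x Λ = P), F (KL e x Λ)
      = ((univ.filter (fun x : Fin k → A => KL e x Λ = P)).card : ℝ) * F P := by
    rw [Finset.sum_congr rfl (fun x hx => by rw [(Finset.mem_filter.1 hx).2]), Finset.sum_const,
      nsmul_eq_mul]
  rw [h2]
  refine mul_le_mul_of_nonneg_right ?_ (hF P)
  have h3 : (univ.filter (fun x : Fin k → A => KL e x Λ = P)).card ≤
      (Fintype.card A) ^ (k - (VSL e Λ).card) := by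
    have h4 : Fintype.card ({v : Fin k // v ∉ VSL e Λ} → A) =
        (Fintype.card A) ^ (k - (VSL e Λ).card) := by
      rw [Fintype.card_fun]
      congr 1
      rw [Fintype.card_subtype_compl]
      simp
    rw [← h4, ← Finset.card_univ]
    refine Finset.card_le_card_of_injOn (fun x v => x v.1) (fun _ _ => Finset.mem_coe.2 (mem_univ _)) ?_
    intro x hx x' hx' hxx
    rw [Finset.mem_coe, Finset.mem_filter] at hx hx'
    funext v
    by_cases hv : v ∈ VSL e Λ
    · obtain ⟨j, hj, hv⟩ := Finset.mem_biUnion.1 hv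
      obtain ⟨o, _, rfl⟩ := Finset.mem_image.1 hv
      obtain ⟨⟨j', c⟩, hc, hj'⟩ := Finset.mem_image.1 hj
      simp only at hj'
      subst hj'
      have : ((pos e x j', c) : VL k r A G) ∈ KL e x' Λ := by
        rw [hx'.2, ← hx.2]; exact (mem_KL e x Λ _).2 ⟨(j', c), hc, rfl⟩
      obtain ⟨⟨i, c'⟩, hi, hij⟩ := (mem_KL e x' Λ _).1 this
      simp only [Prod.mk.injEq] at hij
      have h5 : i = j' := congrArg Prod.fst hij.1
      subst h5
      have h6 := congrArg Prod.snd hij.1
      exact (congrFun h6 o).symm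
    · exact congrFun hxx ⟨v, hv⟩
  exact_mod_cast h3

end

theorem bll_t : T_BLL := by
  intro k r s d A G _ _ _ _ C w e Λ p q hw hp hp1 hq hq1 hwq
  set F : Finset (VL k r A G) → ℝ := fun P =>
    ∑ g : Fin s, ∑ R : Fin d → PA (VL k r A G), Wt q p R * ind (EB C w P ∅ R g) with hF
  have hF0 : ∀ P, 0 ≤ F P := fun P => Finset.sum_nonneg (fun g _ => Finset.sum_nonneg (fun R _ =>
    mul_nonneg (Wt_nonneg hq.le (by linarith) hp.le (by linarith) R) (ind_nonneg _)))
  have h1 : q ^ (d * Λ.card) * ∑ x : Fin k → A, ∑ R : Fin d → PA (VL k r A G),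
      Wt q p R * ind (∃ g, EB C w (KL e x Λ) (KL e x Λ) R g) ≤ ∑ x : Fin k → A, F (KL e x Λ) := by
    rw [Finset.mul_sum]
    refine Finset.sum_le_sum (fun x _ => ?_)
    have h2 : ∑ R : Fin d → PA (VL k r A G), Wt q p R * ind (∃ g, EB C w (KL e x Λ) (KL e x Λ) R g) ≤
        ∑ g : Fin s, ∑ R : Fin d → PA (VL k r A G),
          Wt q p R * ind (EB C w (KL e x Λ) (KL e x Λ) R g) := by
      rw [Finset.sum_comm]
      refine Finset.sum_le_sum (fun R _ => ?_)
      rw [← Finset.mul_sum]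
      exact mul_le_mul_of_nonneg_left (ind_exists_le _)
        (Wt_nonneg hq.le (by linarith) hp.le (by linarith) R)
    refine (mul_le_mul_of_nonneg_left h2 (pow_nonneg hq.le _)).trans ?_
    rw [Finset.mul_sum]
    refine Finset.sum_le_sum (fun g _ => ?_)
    have := BA (VL k r A G) s d C w (KL e x Λ) g p q hp.le (by linarith) hq.le (by linarith)
    rwa [KL_card] at this
  refine h1.trans ((bcl e Λ F hF0).trans ?_)
  have h3 : ∑ P ∈ univ.image (fun x : Fin k → A => KL e x Λ), F P ≤ s * (3 / 2) := by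
    rw [hF, Finset.sum_comm]
    calc _ ≤ ∑ _g : Fin s, (3 / 2 : ℝ) := Finset.sum_le_sum (fun g _ =>
          BB (VL k r A G) s d C w _ g p q hw hp hp1 hq hq1 hwq)
      _ = s * (3 / 2) := by simp
  calc _ ≤ (Fintype.card A : ℝ) ^ (k - (VSL e Λ).card) * (s * (3 / 2)) :=
        mul_le_mul_of_nonneg_left h3 (by positivity)
    _ = s * (3 / 2 * (Fintype.card A : ℝ) ^ (k - (VSL e Λ).card)) := by ring

end Pool.Agent.H68.GP
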