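import Pool.Agent.H68.AC.Stmt

/-!
# Gap-SETH for constant-depth circuits: the definitions used in the statement

The circuits (`Circuit`, `Circuit.Holds`, `Circuit.DepthLE`) and `Satisfiable`, `width` are those of
`Pool/Agent/H68/AC/Stmt.lean`.
-/

namespace Pool.Agent.H68.GP

open Pool.Agent.H68.AC

/-- Every clause has exactly `w` literals, and no variable occurs twice in a clause. -/
def KCNF {m n : ℕ} (w : ℕ) (φ : Fin m × Fin n × Bool → Bool) : Prop :=
  ∀ j, width φ j = w ∧ ∀ i, φ (j, i, true) = false ∨ φ (j, i, false) = false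

/-- The number of clauses violated by the assignment `a`. -/
def viol {m n : ℕ} (φ : Fin m × Fin n × Bool → Bool) (a : Fin n → Bool) : ℕ :=
  (Finset.univ.filter (fun j : Fin m => ∀ i, φ (j, i, a i) = false)).card

/-- Every assignment violates at least `(1 - ε) m / 2 ^ w` clauses (a random assignment violates
`m / 2 ^ w` clauses of a formula in `KCNF w` on average). -/
def Far {m n : ℕ} (ε : ℝ) (w : ℕ) (φ : Fin m × Fin n × Bool → Bool) : Prop :=
  ∀ a, (1 - ε) * (m / 2 ^ w) ≤ viol φ a

open Classical in
/-- The values (`0` or `1`) of all gates and all inputs. -/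
noncomputable def vals {I : Type} {s : ℕ} (R : Type) [Zero R] [One R] (C : Circuit I s) (y : I → Bool) :
    Fin s ⊕ I → R :=
  Sum.elim (fun g => if C.Holds y g then 1 else 0) (fun i => if y i = true then 1 else 0)

open Classical in
/-- `1` if the circuit accepts, otherwise `0`. -/
noncomputable def acc {I : Type} {s : ℕ} (C : Circuit I s) (y : I → Bool) : ℝ :=
  if C.Holds y C.out then 1 else 0

end Pool.Agent.H68.GP
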