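import Pool.Agent.H68.AC.Targets
import Pool.Agent.H68.GP.Stmt

/-!
# Gap-SETH for constant-depth circuits: definitions for the proof

The variables of the function are `(v, c)` where `v : VV k r A` is a variable of the unlabelled function
(a constraint and a local assignment) and `c : G` a label.
-/

namespace Pool.Agent.H68.GP

open Finset Pool.Agent.H68.AC

/-- The variables of the labelled function. -/
abbrev VL (k r : ℕ) (A G : Type) := VV k r A × G

section

variable {k r n' t : ℕ} {A G : Type}

/-- The planted set for a set of labelled constraints. -/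
def KL [DecidableEq A] [DecidableEq G] (e : Fin k → Fin r → Fin k) (x : Fin k → A)
    (Λ : Finset (Fin k × G)) : Finset (VL k r A G) := Λ.image (fun c => (pos e x c.1, c.2))

/-- The vertices covered by a set of labelled constraints. -/
def VSL [DecidableEq G] (e : Fin k → Fin r → Fin k) (Λ : Finset (Fin k × G)) : Finset (Fin k) :=
  VS e (Λ.image Prod.fst)

/-- The labels of the constraints determined by `b`. -/
def lin [AddCommMonoid G] (f : Fin k → Fin t → Fin n') (b : Fin n' → G) (j : Fin k) : G := ∑ i, b (f j i)

/-- The input with planted solution `x`, planted labels `u` and the values `z` elsewhere. -/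
def yL [DecidableEq A] [DecidableEq G] (e : Fin k → Fin r → Fin k) (x : Fin k → A) (u : Fin k → G)
    (z : VL k r A G → Bool) : VL k r A G → Bool :=
  fun v => if v.1 = pos e x v.1.1 then decide (v.2 = u v.1.1) else z v

/-- The constraints of which some planted position is queried. -/
def tch [DecidableEq A] [DecidableEq G] [Fintype G] (e : Fin k → Fin r → Fin k) (x : Fin k → A)
    (ψ : List (VL k r A G × Bool)) : Finset (Fin k) :=
  univ.filter (fun j => ∃ c : G, (pos e x j, c) ∈ ψ.map Prod.fst)

/-- The sums of functions which depend on at most `h` coordinates. -/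
def JH (F : Type) [CommRing F] (k : ℕ) (G : Type) (h : ℕ) : Submodule F ((Fin k → G) → F) :=
  Submodule.span F {f | ∃ H : Finset (Fin k), H.card ≤ h ∧
    ∀ u u' : Fin k → G, (∀ j ∈ H, u j = u' j) → f u = f u'}

/-- Every nonempty set of at most `h` constraints has a unique neighbour. -/
def UN (f : Fin k → Fin t → Fin n') (h : ℕ) : Prop :=
  ∀ H : Finset (Fin k), H.Nonempty → H.card ≤ h →
    ∃ j ∈ H, ∃ i, ∀ j' ∈ H, ∀ i', f j' i' = f j i → j' = j ∧ i' = i

/-- The labels on at most `h` constraints can be chosen arbitrarily. -/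
def Surj (G : Type) [AddCommMonoid G] (f : Fin k → Fin t → Fin n') (h : ℕ) : Prop :=
  ∀ H : Finset (Fin k), H.card ≤ h → ∀ u : Fin k → G, ∃ b : Fin n' → G, ∀ j ∈ H, lin f b j = u j

/-- The word `u` agrees with every codeword in at most `g` positions. -/
def FarW [AddCommMonoid G] [DecidableEq G] (f : Fin k → Fin t → Fin n') (g : ℕ) (u : Fin k → G) : Prop :=
  ∀ b : Fin n' → G, (univ.filter (fun j => u j = lin f b j)).card ≤ g

/-- For all `x`, `b` at most `g` of the constraints select a variable with value `true`. -/
def GZ [AddCommMonoid G] (e : Fin k → Fin r → Fin k) (f : Fin k → Fin t → Fin n') (g : ℕ)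
    (z : VL k r A G → Bool) : Prop :=
  ∀ (x : Fin k → A) (b : Fin n' → G), (univ.filter (fun j => z (pos e x j, lin f b j) = true)).card ≤ g

/-- No block path touches all planted positions of a set of labelled constraints, at most `2 * h`
constraints covering more than `β` vertices. -/
def GoodL {s d : ℕ} [DecidableEq A] [Fintype A] [DecidableEq G] [Fintype G] (C : Ckt (VL k r A G) s d)
    (e : Fin k → Fin r → Fin k) (x : Fin k → A) (R : Fin d → PA (VL k r A G)) (β h : ℕ) : Prop :=
  ∀ Λ : Finset (Fin k × G), β < (VSL e Λ).card → (Λ.image Prod.fst).card ≤ 2 * h → ∀ g π,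
    IsBP (C.cht (KL e x Λ) R g) (rho (KL e x Λ) R (C.lev g + 1)) π →
    ∃ v ∈ KL e x Λ, v ∉ π.flatten.map Prod.fst

end

/-- The error term: `Q` labels. -/
noncomputable def HL (k N Q s w β h d : ℕ) (q : ℝ) : ℝ :=
  2 ^ (k * Q) * (s * (3 / 2 * 16 ^ (k * Q) / 2 ^ (w + 1))) +
    2 ^ (k * Q) * (s * (3 / 2 * (1 / q) ^ (d * (2 * h * Q)) / N ^ (β + 1)))

/-- The formula of the input `y`: signed variables. -/
def enc {I V : Type} (σ : I → Bool) (inc : I → Inp V) (y : V → Bool) : I → Bool :=
  fun i => xor (σ i) ((inc i).val y)

open Classical in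
/-- The values (`0` or `1`) of the gates and inputs of a circuit `Ckt`. -/
noncomputable def cvals {V : Type} {s d : ℕ} (R : Type) [Zero R] [One R] (C : Ckt V s d) (y : V → Bool)
    (g : Fin s) : R := if C.val y g = true then 1 else 0

/-- The circuit is fooled at the pair of families `S`, `U`: all polynomials of degree at most `D` of the
gates and inputs have the same sum. -/
def Fooled {I B : Type} [Fintype B] {s : ℕ} (C : Circuit I s) (D : ℕ) (S U : B → I → Bool) : Prop :=
  ∀ (F : Type) [CommRing F] (P : MvPolynomial (Fin s ⊕ I) F), P.totalDegree ≤ D →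
    ∑ b, MvPolynomial.eval (vals F C (S b)) P = ∑ b, MvPolynomial.eval (vals F C (U b)) P

end Pool.Agent.H68.GP
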