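import Pool.Agent.H68.GP.Bll

/-!
# Gap-SETH for constant-depth circuits: the first-large argument (FLL)

The proof follows that of helper70 (module FL of the AC project).
-/

namespace Pool.Agent.H68.GP

open Finset Pool.Agent.H68.AC

section

variable {k r : ℕ} {A G : Type} [DecidableEq A] [DecidableEq G] [Fintype G]

/-- The labelled constraints whose planted position is queried. -/
def LL (e : Fin k → Fin r → Fin k) (x : Fin k → A) (ψ : List (VL k r A G × Bool)) :
    Finset (Fin k × G) :=
  univ.filter (fun c => (pos e x c.1, c.2) ∈ ψ.map Prod.fst)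

theorem mem_LL {e : Fin k → Fin r → Fin k} {x : Fin k → A} {ψ : List (VL k r A G × Bool)}
    {c : Fin k × G} : c ∈ LL e x ψ ↔ (pos e x c.1, c.2) ∈ ψ.map Prod.fst := by
  simp only [LL, mem_filter, mem_univ, true_and]

theorem mem_tch {e : Fin k → Fin r → Fin k} {x : Fin k → A} {ψ : List (VL k r A G × Bool)}
    {j : Fin k} : j ∈ tch e x ψ ↔ ∃ c : G, (pos e x j, c) ∈ ψ.map Prod.fst := by
  simp only [tch, mem_filter, mem_univ, true_and]

theorem LL_image (e : Fin k → Fin r → Fin k) (x : Fin k → A) (ψ : List (VL k r A G × Bool)) :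
    (LL e x ψ).image Prod.fst = tch e x ψ := by
  ext j
  rw [mem_image, mem_tch]
  constructor
  · rintro ⟨⟨i, c⟩, hc, rfl⟩
    exact ⟨c, mem_LL.1 hc⟩
  · rintro ⟨c, hc⟩
    exact ⟨(j, c), mem_LL.2 hc, rfl⟩

theorem tch_nil (e : Fin k → Fin r → Fin k) (x : Fin k → A) :
    tch e x ([] : List (VL k r A G × Bool)) = ∅ := by
  ext j
  rw [mem_tch]
  simp

theorem tch_append (e : Fin k → Fin r → Fin k) (x : Fin k → A) (ψ ψ' : List (VL k r A G × Bool)) :
    tch e x (ψ ++ ψ') = tch e x ψ ∪ tch e x ψ' := by
  ext j
  rw [mem_union, mem_tch, mem_tch, mem_tch, List.map_append]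
  simp only [List.mem_append, exists_or]

theorem tch_mono (e : Fin k → Fin r → Fin k) (x : Fin k → A) (ψ ψ' : List (VL k r A G × Bool))
    (h : ∀ v ∈ ψ.map Prod.fst, v ∈ ψ'.map Prod.fst) : tch e x ψ ⊆ tch e x ψ' := by
  intro j hj
  rw [mem_tch] at hj ⊢
  obtain ⟨c, hc⟩ := hj
  exact ⟨c, h _ hc⟩

theorem tch_single (e : Fin k → Fin r → Fin k) (x : Fin k → A) (a : VL k r A G × Bool) :
    (tch e x [a]).card ≤ 1 := by
  rw [Finset.card_le_one]
  intro i hi j hj
  rw [mem_tch] at hi hj
  obtain ⟨c, hc⟩ := hi
  obtain ⟨c', hc'⟩ := hj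
  simp only [List.map_cons, List.map_nil, List.mem_singleton] at hc hc'
  have h1 := congrArg Prod.fst (hc.trans hc'.symm)
  exact congrArg Prod.fst h1

end

theorem fll_t : T_FLL := by
  intro k r s d A G _ _ _ _ C e x R β h hE h1 hG
  -- all paths of all trees are small
  have key : ∀ n g, C.lev g = n → ∀ ψ c, IsPath (C.T (KL e x univ) R g) ψ c →
      (VS e (tch e x ψ)).card ≤ β := by
    intro n
    induction n using Nat.strong_induction_on with
    | _ n ih =>
      intro g hg ψ c hψ
      rw [C.T_eq] at hψ
      obtain ⟨π, hπ, hbp, _⟩ := canp_t _ _ _ _ _ _ (nfree_le _) hψ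
      have main : ∀ π, IsBP (C.cht (KL e x univ) R g) (rho (KL e x univ) R (C.lev g + 1)) π →
          (VS e (tch e x π.flatten)).card ≤ β := by
        intro π
        induction π using List.reverseRecOn with
        | nil =>
          intro _
          rw [List.flatten_nil, tch_nil]
          simp [VS]
        | append_singleton π α ihπ =>
          intro hb
          obtain ⟨hb1, τ, hτ, hfr, hα⟩ := (bps_t _ _ _ _ _).1 hb
          have hs1 : (tch e x π.flatten).card ≤ h :=
            Pool.Agent.H70.AC.expd_small hE _ (ihπ hb1)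
          have hs2 : (tch e x τ).card ≤ h := by
            obtain ⟨c, hc, hp⟩ := ((nxs_t _ _ _).1 τ hτ).2.2
            obtain ⟨⟨b, a⟩, ha, rfl⟩ := (C.mem_cht _ R g c).1 hc
            rcases a with i | g'
            · rcases Pool.Agent.H70.AC.inp_path i τ _ hp with rfl | ⟨a, rfl⟩
              · rw [tch_nil]; simp
              · exact (tch_single e x a).trans h1
            · have hl := C.acyc g b g' ha
              exact Pool.Agent.H70.AC.expd_small hE _ (ih (C.lev g') (by omega) g' rfl τ _ hp)
          have hs3 : (tch e x α).card ≤ h := by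
            refine (Finset.card_le_card (tch_mono e x α τ ?_)).trans hs2
            intro v hv
            rw [hα, mem_fr] at hv
            exact hv.1
          by_contra hcon
          push Not at hcon
          have hfl : (π ++ [α]).flatten = π.flatten ++ α := by
            rw [List.flatten_append]; simp
          have hcard : (tch e x (π ++ [α]).flatten).card ≤ 2 * h := by
            rw [hfl, tch_append]
            refine (Finset.card_union_le _ _).trans ?_
            omega
          set Λ := LL e x (π ++ [α]).flatten with hΛ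
          have hAB : KL e x Λ ⊆ KL e x univ :=
            Finset.image_subset_image (Finset.subset_univ _)
          have hav : Avoid {v | v ∈ KL e x univ ∧ v ∉ KL e x Λ} (π ++ [α]).flatten := by
            intro c hc hcm
            obtain ⟨hc1, hc2⟩ := hcm
            obtain ⟨j, _, hj⟩ := (mem_KL e x univ _).1 hc1
            apply hc2
            rw [mem_KL]
            refine ⟨j, ?_, hj⟩
            rw [hΛ, mem_LL, hj]
            exact List.mem_map_of_mem hc
          have hbA := (LOCW _ _ _ C _ _ R g hAB).2 _ hb hav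
          obtain ⟨v, hv, hvn⟩ := hG Λ (by rw [VSL, hΛ, LL_image]; exact hcon)
            (by rw [hΛ, LL_image]; exact hcard) g _ hbA
          rw [mem_KL] at hv
          obtain ⟨j, hj, rfl⟩ := hv
          rw [hΛ, mem_LL] at hj
          exact hvn hj
      rw [← hπ]
      exact main π hbp
  intro g ψ c hψ
  exact Pool.Agent.H70.AC.expd_small hE _ (key _ g rfl ψ c hψ)

end Pool.Agent.H68.GP
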