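import Pool.Agent.H68.GP.Fll

/-!
# Gap-SETH for constant-depth circuits: gates are sums of functions of few labels (TJ)
-/

namespace Pool.Agent.H68.GP

open Finset Pool.Agent.H68.AC

section

variable {k r : ℕ} {A G : Type} [DecidableEq A] [DecidableEq G] [Fintype G]

open Classical in
theorem tree_JH (F : Type) [CommRing F] (e : Fin k → Fin r → Fin k) (x : Fin k → A)
    (z : VL k r A G → Bool) (h : ℕ) (t : DT (VL k r A G)) :
    ∀ T : Finset (Fin k), (∀ ψ c, IsPath t ψ c → (T ∪ tch e x ψ).card ≤ h) →
    ∀ χ : (Fin k → G) → F, (∀ u u', (∀ j ∈ T, u j = u' j) → χ u = χ u') →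
    (fun u : Fin k → G => χ u * (if t.eval (yL e x u z) = true then (1 : F) else 0)) ∈ JH F k G h := by
  induction t with
  | leaf b =>
    intro T hT χ hχ
    have h1 := hT [] b (IsPath.leaf b)
    refine Submodule.subset_span ⟨T, le_trans (card_le_card subset_union_left) h1, ?_⟩
    intro u u' huu
    change χ u * _ = χ u' * _
    rw [hχ u u' huu]
    rfl
  | node v l rr ihl ihr =>
    intro T hT χ hχ
    by_cases hv : v.1 = pos e x v.1.1
    · -- planted position
      set j := v.1.1 with hj
      have hy : ∀ u : Fin k → G, yL e x u z v = decide (v.2 = u j) := by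
        intro u
        simp only [yL]
        rw [if_pos hv]
      have hmem : j ∈ tch e x [(v, true)] ∧ j ∈ tch e x [(v, false)] := by
        constructor
        · rw [mem_tch]
          refine ⟨v.2, ?_⟩
          simp only [List.map_cons, List.map_nil, List.mem_singleton]
          rw [← hv]
        · rw [mem_tch]
          refine ⟨v.2, ?_⟩
          simp only [List.map_cons, List.map_nil, List.mem_singleton]
          rw [← hv]
      have hr := ihr (insert j T) (by
        intro ψ c hψ
        refine le_trans (card_le_card ?_) (hT ((v, true) :: ψ) c (IsPath.right v l rr ψ c hψ))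
        have h2 : ((v, true) :: ψ : List (VL k r A G × Bool)) = [(v, true)] ++ ψ := rfl
        rw [h2, tch_append]
        intro i hi
        simp only [mem_union, mem_insert] at hi ⊢
        rcases hi with (rfl | hi) | hi
        · exact Or.inr (Or.inl hmem.1)
        · exact Or.inl hi
        · exact Or.inr (Or.inr hi)) (fun u => χ u * (if v.2 = u j then 1 else 0)) (by
        intro u u' huu
        rw [hχ u u' (fun i hi => huu i (mem_insert_of_mem hi)), huu j (mem_insert_self _ _)])
      have hl := ihl (insert j T) (by
        intro ψ c hψ
        refine le_trans (card_le_card ?_) (hT ((v, false) :: ψ) c (IsPath.left v l rr ψ c hψ))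
        have h2 : ((v, false) :: ψ : List (VL k r A G × Bool)) = [(v, false)] ++ ψ := rfl
        rw [h2, tch_append]
        intro i hi
        simp only [mem_union, mem_insert] at hi ⊢
        rcases hi with (rfl | hi) | hi
        · exact Or.inr (Or.inl hmem.2)
        · exact Or.inl hi
        · exact Or.inr (Or.inr hi)) (fun u => χ u * (if v.2 = u j then 0 else 1)) (by
        intro u u' huu
        rw [hχ u u' (fun i hi => huu i (mem_insert_of_mem hi)), huu j (mem_insert_self _ _)])
      have hsum := Submodule.add_mem _ hr hl
      convert hsum using 1
      funext u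
      simp only [Pi.add_apply, DT.eval, hy]
      by_cases hc : v.2 = u j
      · simp [hc]
      · simp [hc]
    · have hy : ∀ u : Fin k → G, yL e x u z v = z v := by
        intro u
        simp only [yL]
        rw [if_neg hv]
      cases hz : z v with
      | true =>
        have hr := ihr T (by
          intro ψ c hψ
          refine le_trans (card_le_card ?_) (hT ((v, true) :: ψ) c (IsPath.right v l rr ψ c hψ))
          apply union_subset_union_right
          apply tch_mono
          intro w hw
          exact List.mem_cons_of_mem _ hw) χ hχ
        simpa only [DT.eval, hy, hz, cond_true] using hr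
      | false =>
        have hl := ihl T (by
          intro ψ c hψ
          refine le_trans (card_le_card ?_) (hT ((v, false) :: ψ) c (IsPath.left v l rr ψ c hψ))
          apply union_subset_union_right
          apply tch_mono
          intro w hw
          exact List.mem_cons_of_mem _ hw) χ hχ
        simpa only [DT.eval, hy, hz, cond_false] using hl

end

theorem tj_t : T_TJ := by
  classical
  intro F _ k r s d A G _ _ _ _ C e x R z β h hE hh hG g
  have h1 := tree_JH F e x (fun v => (fd R d v).getD (z v)) h (C.T (KL e x univ) R g) ∅ (by
    intro ψ c hψ
    rw [empty_union]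
    exact fll_t k r s d A G C e x R β h hE hh hG g ψ c hψ) (fun _ => 1) (fun _ _ _ => rfl)
  have hlev : C.lev g + 1 ≤ d := C.lev_lt g
  have hext : ∀ u : Fin k → G, Ext (rho (KL e x univ) R (C.lev g + 1))
      (yL e x u (fun v => (fd R d v).getD (z v))) := by
    intro u v b hv
    simp only [rho, mask] at hv
    by_cases hP : v ∈ KL e x univ
    · simp [hP] at hv
    · simp only [hP, if_false] at hv
      have hne : v.1 ≠ pos e x v.1.1 := by
        intro hv1
        apply hP
        rw [mem_KL]
        refine ⟨(v.1.1, v.2), mem_univ _, ?_⟩
        simp only
        rw [← hv1]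
      have h2 := fd_mono R hlev v b hv
      simp only [yL]
      rw [if_neg hne, h2]
      rfl
  convert h1 using 1
  funext u
  simp only [cvals, one_mul]
  rw [cor_t _ s d C (KL e x univ) R g _ (hext u)]

end Pool.Agent.H68.GP
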