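import Pool.Agent.H68.GP.Ubl
import Pool.Agent.H68.GP.Tj
import Pool.Agent.H68.GP.Enc

/-!
# Gap-SETH for constant-depth circuits: assembly (STAR)
-/

namespace Pool.Agent.H68.GP

open Finset Filter Pool.Agent.H68.AC

theorem const_JH {F : Type} [CommRing F] {k : ℕ} {G : Type} (h : ℕ) (a : F) :
    (fun _ : Fin k → G => a) ∈ JH F k G h :=
  Submodule.subset_span ⟨∅, by simp, fun _ _ _ => rfl⟩

/-- In a good outcome the circuit is fooled. -/
theorem fooled_of_good (hJH : T_JH) (hJS : T_JS) {m n k r n' t s d D β h h' : ℕ} {A G : Type}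
    [DecidableEq A] [Fintype A] [DecidableEq G] [Fintype G] [AddCommGroup G]
    (C : Circuit (Fin m × Fin n × Bool) s) (σ : Fin m × Fin n × Bool → Bool)
    (inc : Fin m × Fin n × Bool → Inp (VL k r A G)) (C' : Ckt (VL k r A G) s d) (b₀ : Fin s → Bool)
    (hC' : ∀ y g, (C'.val y g = b₀ g ↔ C.Holds (enc σ inc y) g))
    (e : Fin k → Fin r → Fin k) (f : Fin k → Fin t → Fin n') (x : Fin k → A)
    (R : Fin d → PA (VL k r A G)) (z : VL k r A G → Bool) (u₀ : Fin k → G) (hE : Expd e β h)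
    (hh : 1 ≤ h) (hDh : D * h ≤ h') (hS : Surj G f h') (hG : GoodL C' e x R β h) :
    Fooled C D (fun b : Fin n' → G => enc σ inc (yL e x (lin f b) (fun v => (fd R d v).getD (z v))))
      (fun b => enc σ inc (yL e x (u₀ + lin f b) (fun v => (fd R d v).getD (z v)))) := by
  classical
  intro F _ P hP
  set z' : VL k r A G → Bool := fun v => (fd R d v).getD (z v) with hz'
  set v : Fin s ⊕ (Fin m × Fin n × Bool) → (Fin k → G) → F :=
    fun i u => vals F C (enc σ inc (yL e x u z')) i with hv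
  have hvJ : ∀ i, v i ∈ JH F k G h := by
    intro i
    rcases i with g | i
    · have h1 := tj_t F k r s d A G C' e x R z β h hE hh hG g
      rw [← hz'] at h1
      cases hb : b₀ g with
      | true =>
        convert h1 using 1
        funext u
        simp only [hv, vals, Sum.elim_inl, cvals, ← hC', hb]
      | false =>
        have h2 := Submodule.sub_mem _ (const_JH (F := F) (G := G) (k := k) h 1) h1
        convert h2 using 1
        funext u
        simp only [hv, vals, Sum.elim_inl, ← hC', hb, Pi.sub_apply, cvals]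
        cases C'.val (yL e x u z') g <;> simp
    · refine (hJH F k G).1 1 h hh ?_
      cases hi : inc i with
      | const c =>
        refine Submodule.subset_span ⟨∅, by simp, ?_⟩
        intro u u' _
        simp only [hv, vals, Sum.elim_inr, enc, hi, Inp.val]
      | var v' =>
        refine Submodule.subset_span ⟨{v'.1.1}, by simp, ?_⟩
        intro u u' huu
        have h3 : yL e x u z' v' = yL e x u' z' v' := by
          simp only [yL]
          rw [huu v'.1.1 (mem_singleton_self _)]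
        simp only [hv, vals, Sum.elim_inr, enc, hi, Inp.val, h3]
  have h4 := (hJH F k G).2.2 _ v h D P hvJ hP
  have h5 := (hJH F k G).1 _ _ hDh h4
  exact hJS F k n' t h' G f u₀ _ hS h5

/-- The probability that the circuit is not fooled. -/
theorem bad_core (hJH : T_JH) (hJS : T_JS) {m n k r n' t s d D β h h' w₀ : ℕ} {A G : Type}
    [DecidableEq A] [Fintype A] [DecidableEq G] [Fintype G] [AddCommGroup G]
    (C : Circuit (Fin m × Fin n × Bool) s) (σ : Fin m × Fin n × Bool → Bool)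
    (inc : Fin m × Fin n × Bool → Inp (VL k r A G)) (C' : Ckt (VL k r A G) s d) (b₀ : Fin s → Bool)
    (hC' : ∀ y g, (C'.val y g = b₀ g ↔ C.Holds (enc σ inc y) g))
    (e : Fin k → Fin r → Fin k) (f : Fin k → Fin t → Fin n') (u₀ : Fin k → G) (hE : Expd e β h)
    (hh : 1 ≤ h) (hDh : D * h ≤ h') (hS : Surj G f h') {p q : ℝ} (hw₀ : 1 ≤ w₀)
    (hp : 0 < p) (hp1 : p ≤ 1 / 2) (hq : 0 < q) (hq1 : q ≤ 1 / 2) (hwq : 64 * w₀ * q ≤ p)
    (hA : 1 ≤ Fintype.card A) :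
    ∑ x : Fin k → A, ∑ z : VL k r A G → Bool, wz p z *
      ind (¬ Fooled C D (fun b : Fin n' → G => enc σ inc (yL e x (lin f b) z))
        (fun b => enc σ inc (yL e x (u₀ + lin f b) z))) ≤
    (Fintype.card A : ℝ) ^ k * HL k (Fintype.card A) (Fintype.card G) s w₀ β h d q := by
  set Bad : (Fin k → A) → (VL k r A G → Bool) → ℝ := fun x z =>
    ind (¬ Fooled C D (fun b : Fin n' → G => enc σ inc (yL e x (lin f b) z))
      (fun b => enc σ inc (yL e x (u₀ + lin f b) z))) with hBad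
  have hWn : ∀ R : Fin d → PA (VL k r A G), 0 ≤ Wt q p R := fun R =>
    Wt_nonneg hq.le (by linarith) hp.le (by linarith) R
  have hzn : ∀ z : VL k r A G → Bool, 0 ≤ wz p z := fun z =>
    Pool.Agent.H81.AC.wz_nonneg hp.le (by linarith) z
  have h3 : ∑ x : Fin k → A, ∑ z : VL k r A G → Bool, wz p z * Bad x z =
      ∑ x : Fin k → A, ∑ R : Fin d → PA (VL k r A G), ∑ z : VL k r A G → Bool,
          Wt q p R * wz p z * Bad x (fun v => (fd R d v).getD (z v)) :=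
    Finset.sum_congr rfl (fun x _ => (Pool.Agent.H90.AC.PUSH _ d q p (fun z => Bad x z)).symm)
  have h4 : ∑ x : Fin k → A, ∑ R : Fin d → PA (VL k r A G), ∑ z : VL k r A G → Bool,
          Wt q p R * wz p z * Bad x (fun v => (fd R d v).getD (z v)) ≤
      ∑ x : Fin k → A, ∑ R : Fin d → PA (VL k r A G),
        Wt q p R * ind (¬ GoodL C' e x R β h) := by
    refine Finset.sum_le_sum (fun x _ => Finset.sum_le_sum (fun R _ => ?_))
    have h5 : ∀ z : VL k r A G → Bool,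
        Wt q p R * wz p z * Bad x (fun v => (fd R d v).getD (z v)) ≤
        Wt q p R * ind (¬ GoodL C' e x R β h) * wz p z := by
      intro z
      have h6 : Bad x (fun v => (fd R d v).getD (z v)) ≤ ind (¬ GoodL C' e x R β h) := by
        apply ind_mono
        intro hnf hG
        exact hnf (fooled_of_good hJH hJS C σ inc C' b₀ hC' e f x R z u₀ hE hh hDh hS hG)
      calc Wt q p R * wz p z * Bad x (fun v => (fd R d v).getD (z v))
          ≤ Wt q p R * wz p z * ind (¬ GoodL C' e x R β h) :=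
            mul_le_mul_of_nonneg_left h6 (mul_nonneg (hWn R) (hzn z))
        _ = _ := by ring
    refine (Finset.sum_le_sum (fun z _ => h5 z)).trans (le_of_eq ?_)
    rw [← Finset.mul_sum, Pool.Agent.H81.AC.sum_wz, mul_one]
  rw [h3]
  exact h4.trans (ubl_t k r s d A G C' w₀ β h e p q hw₀ hp hp1 hq hq1 hwq hA)

open Classical in
theorem sum_omega {X Z : Type} [Fintype X] [Fintype Z] (p : Z → Prop) (F : X × Z → ℝ) :
    ∑ i : {i : X × Z // p i.2}, F i.1 = ∑ x : X, ∑ z : Z, ind (p z) * F (x, z) := by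
  rw [← Finset.sum_subtype (univ.filter (fun i : X × Z => p i.2)) (by simp) F, Finset.sum_filter,
    Fintype.sum_prod_type]
  refine Finset.sum_congr rfl (fun x _ => Finset.sum_congr rfl (fun z _ => ?_))
  simp only
  by_cases hU : p z
  · rw [if_pos hU, ind_true hU, one_mul]
  · rw [if_neg hU, ind_false hU, zero_mul]

/-- The words far from the code. -/
theorem cov_num {k n' a t : ℕ} {θ : ℝ} (hθ : 0 < θ) (ht : 2 ≤ t) (ha : 2 / θ ≤ a)
    (hn' : (n' : ℝ) ≤ θ / 2 * k) :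
    (t ^ a) ^ n' * 2 ^ k < (t ^ a) ^ (⌊θ * k⌋₊ + 1) := by
  have h1 : θ * k < ⌊θ * k⌋₊ + 1 := Nat.lt_floor_add_one _
  have h2 : (k : ℝ) + a * n' < a * (⌊θ * k⌋₊ + 1) := by
    have ha0 : (0 : ℝ) < a := lt_of_lt_of_le (by positivity) ha
    have h3 : θ / 2 * k < (⌊θ * k⌋₊ + 1 : ℝ) - n' := by linarith
    have h4 : (k : ℝ) ≤ a * (θ / 2 * k) := by
      have h5 : 1 ≤ a * (θ / 2) := by
        rw [div_le_iff₀ hθ] at ha
        linarith
      calc (k : ℝ) = 1 * k := (one_mul _).symm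
        _ ≤ a * (θ / 2) * k := mul_le_mul_of_nonneg_right h5 (Nat.cast_nonneg k)
        _ = _ := by ring
    have h6 := mul_lt_mul_of_pos_left h3 ha0
    linarith
  have h3 : k + a * n' < a * (⌊θ * k⌋₊ + 1) := by exact_mod_cast h2
  rw [← pow_mul, ← pow_mul]
  calc t ^ (a * n') * 2 ^ k ≤ t ^ (a * n') * t ^ k :=
        Nat.mul_le_mul_left _ (Nat.pow_le_pow_left ht k)
    _ = t ^ (k + a * n') := by rw [← pow_add, add_comm]
    _ < t ^ (a * (⌊θ * k⌋₊ + 1)) := Nat.pow_lt_pow_right (by omega) h3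

/-- The number of violated clauses. -/
theorem far_num {m n k w : ℕ} {θ : ℝ} (hθ : 0 < θ) (hθ1 : θ ≤ 1 / 3) (hk : 1 ≤ k)
    (hkn : (k : ℝ) ≤ θ * n) (hm : n * 2 ^ w ≤ m) :
    (1 - 3 * θ) * (m / 2 ^ w) ≤ ((m / (k * 2 ^ w) * (k - (⌊θ * k⌋₊ + ⌊θ * k⌋₊)) : ℕ) : ℝ) := by
  have hk0 : (0 : ℝ) < k := by exact_mod_cast hk
  have hg : (⌊θ * k⌋₊ : ℝ) ≤ θ * k := Nat.floor_le (by positivity)
  have h1 : (k : ℝ) * (1 - 2 * θ) ≤ ((k - (⌊θ * k⌋₊ + ⌊θ * k⌋₊) : ℕ) : ℝ) := by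
    have h2 : (k : ℝ) ≤ ((k - (⌊θ * k⌋₊ + ⌊θ * k⌋₊) : ℕ) : ℝ) + (⌊θ * k⌋₊ + ⌊θ * k⌋₊) := by
      have : k ≤ (k - (⌊θ * k⌋₊ + ⌊θ * k⌋₊)) + (⌊θ * k⌋₊ + ⌊θ * k⌋₊) := by omega
      exact_mod_cast this
    linarith
  have hM : 0 < k * 2 ^ w := by positivity
  have h3 : (m : ℝ) ≤ ((m / (k * 2 ^ w) : ℕ) + 1) * (k * 2 ^ w) := by
    have := (Nat.lt_div_mul_add hM (a := m)).le
    have h4 : (m : ℝ) ≤ (m / (k * 2 ^ w) : ℕ) * (k * 2 ^ w : ℕ) + (k * 2 ^ w : ℕ) := by exact_mod_cast this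
    push_cast at h4 ⊢
    linarith
  have hw0 : (0 : ℝ) < 2 ^ w := by positivity
  set c : ℝ := ((m / (k * 2 ^ w) : ℕ) : ℝ) with hc
  have h5 : (m : ℝ) / 2 ^ w - k ≤ c * k := by
    rw [sub_le_iff_le_add, div_le_iff₀ hw0]
    calc (m : ℝ) ≤ (c + 1) * (k * 2 ^ w) := h3
      _ = (c * k + k) * 2 ^ w := by ring
  have h6 : (k : ℝ) ≤ θ * (m / 2 ^ w) := by
    refine hkn.trans ?_
    apply mul_le_mul_of_nonneg_left _ hθ.le
    rw [le_div_iff₀ hw0]
    exact_mod_cast hm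
  have h7 : (0 : ℝ) ≤ m / 2 ^ w := by positivity
  have hc0 : 0 ≤ c := Nat.cast_nonneg _
  push_cast
  rw [← hc]
  calc (1 - 3 * θ) * (m / 2 ^ w) ≤ (1 - θ) * (m / 2 ^ w) * (1 - 2 * θ) := by nlinarith
    _ ≤ (c * k) * (1 - 2 * θ) := by
        apply mul_le_mul_of_nonneg_right _ (by linarith)
        linarith
    _ = c * (k * (1 - 2 * θ)) := by ring
    _ ≤ _ := mul_le_mul_of_nonneg_left h1 hc0

theorem star_core (hJH : T_JH) (hJS : T_JS) (hSURJ : T_SURJ) (hUNX : T_UNX) (hCOV : T_COV)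
    (hGZP : T_GZP) (hSEM : T_SEM) (hENS : T_ENS) (hPARG : T_PARG) (t : ℕ) (ht : 2 ≤ t) (ht3 : t ≤ 3)
    (ε : ℝ) (hε : 0 < ε) (hε1 : ε ≤ 1) : ∃ c : ℕ, ∀ᶠ n : ℕ in atTop, ∀ d D w m : ℕ, 1 ≤ d →
    (d + D) ^ 2 ≤ n → c * (d + D) * Nat.log 2 n ≤ w → w < n → n * 2 ^ w ≤ m →
    ∃ (Ω B : Type) (_ : Fintype Ω) (_ : Fintype B) (μ : Ω → ℝ)
      (S U : Ω → B → Fin m × Fin n × Bool → Bool), (∀ ω, 0 ≤ μ ω) ∧ ∑ ω, μ ω = 1 ∧
      (∃ j, Fintype.card B = t ^ j) ∧
      (∀ ω b, KCNF w (S ω b) ∧ Satisfiable (S ω b) ∧ KCNF w (U ω b) ∧ Far ε w (U ω b)) ∧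
      ∀ (s : ℕ) (C : Circuit (Fin m × Fin n × Bool) s), C.DepthLE d →
        ∑ ω, μ ω * ind (¬ Fooled C D (S ω) (U ω)) ≤ s * 2 ^ (-((1 - ε) * n)) := by
  classical
  haveI : NeZero t := ⟨by omega⟩
  set θ : ℝ := ε / 3 with hθdef
  have hθ : 0 < θ := by positivity
  have hθ1 : θ ≤ 1 / 3 := by rw [hθdef]; linarith
  obtain ⟨κ, hκ, K₀, hK⟩ := hUNX (θ / 2) (by positivity) (by linarith)
  obtain ⟨c₀, hc₀, hr⟩ := hgu_t (1 - ε / 4) (by linarith) (by linarith)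
  set a : ℕ := ⌈2 / θ⌉₊ with ha
  have ha2 : 2 / θ ≤ a := Nat.le_ceil _
  obtain ⟨c, hc⟩ := hPARG ε θ κ c₀ (t ^ a) (2 * a) a K₀ hε hε1 hθ (by linarith) hκ hc₀
    (Nat.one_le_pow _ _ (by omega)) (by rwa [div_le_iff₀ hθ] at ha2)
  refine ⟨c, ?_⟩
  filter_upwards [hc] with n hn d D w m hd hdD hw hwn hm
  obtain ⟨k, w₀, r, δ, p, q, hK₀, hk, hkθ, hkL, hδ, hδr, hrL, hh1, hDh, hw₀, hp, hp1, hq, hq1, hwq, hpk,
    hHL⟩ := hn d D hd hdD
  obtain ⟨n', f, hn'k, hn'θ, hUN⟩ := hK k hK₀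
  set L : ℕ := Nat.log 2 n with hL
  obtain ⟨G, iG1, iG2, iG3, hcardG⟩ : ∃ (G : Type) (_ : AddCommGroup G) (_ : Fintype G)
      (_ : DecidableEq G), Fintype.card G = t ^ a :=
    ⟨Fin a → ZMod t, inferInstance, inferInstance, inferInstance, by simp [ZMod.card]⟩
  have hcardA : Fintype.card (Fin L → Bool) = 2 ^ L := by simp
  obtain ⟨e, he⟩ := hr δ r k hδ hδr hk
  have hS : Surj G f ⌊κ * k⌋₊ := hSURJ k n' 4 ⌊κ * k⌋₊ G f hUN
  obtain ⟨u₀, hu₀⟩ := hCOV k n' 4 ⌊θ * k⌋₊ G f (by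
    rw [hcardG]
    exact cov_num hθ ht ha2 hn'θ)
  have hwpos : 1 ≤ w := by
    have h1 : 1 ≤ (r + 1) * L + 4 * (2 * a) := by
      have : 0 < a := by
        rw [ha, Nat.ceil_pos]
        positivity
      omega
    exact h1.trans (hrL.trans hw)
  obtain ⟨σ, inc, hK1, hK2, hK3⟩ := hENS k r L (2 * a) n' n m w G e f hk hwpos (by
      rw [hcardG, pow_mul]
      exact Nat.pow_le_pow_left (by omega) a) (by
      have : n' * (2 * a) ≤ k * (2 * a) := Nat.mul_le_mul_right _ hn'k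
      have h2 : k * (L + 2 * a) = k * L + k * (2 * a) := Nat.mul_add _ _ _
      omega) (hrL.trans hw) hwn
  -- the normalisation
  set Z : ℝ := ∑ x : Fin k → Fin L → Bool, ∑ z : VL k r (Fin L → Bool) G → Bool,
    ind (GZ e f ⌊θ * k⌋₊ z) * wz p z with hZ
  have hzn : ∀ z : VL k r (Fin L → Bool) G → Bool, 0 ≤ wz p z := fun z =>
    Pool.Agent.H81.AC.wz_nonneg hp.le (by linarith) z
  have hN0 : (0 : ℝ) < (2 ^ L : ℝ) ^ k := by positivity
  have hZ1 : (2 ^ L : ℝ) ^ k * (1 / 2) ≤ Z := by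
    have h1 : ∀ x : Fin k → Fin L → Bool, (1 / 2 : ℝ) ≤
        ∑ z : VL k r (Fin L → Bool) G → Bool, ind (GZ e f ⌊θ * k⌋₊ z) * wz p z := by
      intro x
      have h2 := hGZP k r n' 4 ⌊θ * k⌋₊ (Fin L → Bool) G e f p hp.le (by linarith)
      have h3 : ∀ z : VL k r (Fin L → Bool) G → Bool, ind (GZ e f ⌊θ * k⌋₊ z) * wz p z =
          wz p z - wz p z * ind (¬ GZ e f ⌊θ * k⌋₊ z) := by
        intro z
        by_cases hU : GZ e f ⌊θ * k⌋₊ z
        · rw [ind_true hU, ind_false (not_not.2 hU)]; ring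
        · rw [ind_false hU, ind_true hU]; ring
      simp_rw [h3]
      rw [Finset.sum_sub_distrib, Pool.Agent.H81.AC.sum_wz]
      have h4 : (Fintype.card (Fin L → Bool) : ℝ) ^ k * (Fintype.card G : ℝ) ^ n' * 2 ^ k *
          p ^ (⌊θ * k⌋₊ + 1) ≤ 1 / 2 := by
        refine le_trans ?_ hpk
        rw [hcardG, hcardA]
        push_cast
        have h5 : ((t : ℝ) ^ a) ^ n' ≤ ((t : ℝ) ^ a) ^ k := by
          apply pow_le_pow_right₀ _ hn'k
          apply one_le_pow₀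
          have : (2 : ℝ) ≤ t := by exact_mod_cast ht
          linarith
        gcongr
      linarith
    calc (2 ^ L : ℝ) ^ k * (1 / 2) = ∑ _x : Fin k → Fin L → Bool, (1 / 2 : ℝ) := by
          rw [Finset.sum_const, card_univ, Fintype.card_fun, hcardA, Fintype.card_fin, nsmul_eq_mul]
          push_cast
          ring
      _ ≤ Z := Finset.sum_le_sum (fun x _ => h1 x)
  have hZ0 : 0 < Z := lt_of_lt_of_le (by positivity) hZ1
  refine ⟨{i : (Fin k → Fin L → Bool) × (VL k r (Fin L → Bool) G → Bool) // GZ e f ⌊θ * k⌋₊ i.2},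
    Fin n' → G, inferInstance, inferInstance, fun i => wz p i.1.2 / Z,
    fun i b => enc σ inc (yL e i.1.1 (lin f b) i.1.2),
    fun i b => enc σ inc (yL e i.1.1 (u₀ + lin f b) i.1.2), fun i => div_nonneg (hzn _) hZ0.le, ?_, ?_,
    ?_, ?_⟩
  · rw [sum_omega (fun z => GZ e f ⌊θ * k⌋₊ z) (fun i => wz p i.2 / Z)]
    simp only [← mul_div_assoc, ← Finset.sum_div]
    rw [← hZ, div_self hZ0.ne']
  · refine ⟨a * n', ?_⟩
    rw [Fintype.card_fun, hcardG, Fintype.card_fin, pow_mul]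
  · rintro ⟨⟨x, z⟩, hz⟩ b
    have hsem := hSEM k r n' 4 (Fin L → Bool) G e f x z b
    refine ⟨hK1 _, hK2 _ ⟨x, b, hsem.1⟩, hK1 _, ?_⟩
    intro α
    have h1 := hK3 _ _ (hsem.2 _ _ u₀ hz hu₀) α
    have h2 := far_num (m := m) (n := n) (k := k) (w := w) hθ hθ1 hk hkθ hm
    have h3 : (1 - 3 * θ) = 1 - ε := by rw [hθdef]; ring
    rw [h3] at h2
    exact h2.trans (by exact_mod_cast h1)
  · intro s C hC
    obtain ⟨C', b₀, hC'⟩ := enc_t _ (VL k r (Fin L → Bool) G) s d C σ inc hC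
    set Bad : (Fin k → Fin L → Bool) → (VL k r (Fin L → Bool) G → Bool) → ℝ := fun x z =>
      ind (¬ Fooled C D (fun b : Fin n' → G => enc σ inc (yL e x (lin f b) z))
        (fun b => enc σ inc (yL e x (u₀ + lin f b) z))) with hBad
    have h1 : ∑ i : {i : (Fin k → Fin L → Bool) × (VL k r (Fin L → Bool) G → Bool) //
        GZ e f ⌊θ * k⌋₊ i.2}, wz p i.1.2 / Z * ind (¬ Fooled C D
          (fun b : Fin n' → G => enc σ inc (yL e i.1.1 (lin f b) i.1.2))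
          (fun b => enc σ inc (yL e i.1.1 (u₀ + lin f b) i.1.2))) =
        (∑ x : Fin k → Fin L → Bool, ∑ z : VL k r (Fin L → Bool) G → Bool,
          ind (GZ e f ⌊θ * k⌋₊ z) * (wz p z * Bad x z)) / Z := by
      rw [sum_omega (fun z => GZ e f ⌊θ * k⌋₊ z) (fun i => wz p i.2 / Z * Bad i.1 i.2)]
      rw [Finset.sum_div]
      refine Finset.sum_congr rfl (fun x _ => ?_)
      rw [Finset.sum_div]
      refine Finset.sum_congr rfl (fun z _ => ?_)
      simp only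
      ring
    have hgoal : (∑ x : Fin k → Fin L → Bool, ∑ z : VL k r (Fin L → Bool) G → Bool,
          ind (GZ e f ⌊θ * k⌋₊ z) * (wz p z * Bad x z)) / Z ≤ s * 2 ^ (-((1 - ε) * n)) := by
      have hBn : ∀ x z, 0 ≤ Bad x z := fun x z => ind_nonneg _
      have h2 : ∑ x : Fin k → Fin L → Bool, ∑ z : VL k r (Fin L → Bool) G → Bool,
          ind (GZ e f ⌊θ * k⌋₊ z) * (wz p z * Bad x z) ≤
          ∑ x : Fin k → Fin L → Bool, ∑ z : VL k r (Fin L → Bool) G → Bool, wz p z * Bad x z := by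
        refine Finset.sum_le_sum (fun x _ => Finset.sum_le_sum (fun z _ => ?_))
        calc ind (GZ e f ⌊θ * k⌋₊ z) * (wz p z * Bad x z) ≤ 1 * (wz p z * Bad x z) :=
              mul_le_mul_of_nonneg_right (ind_le_one _) (mul_nonneg (hzn z) (hBn x z))
          _ = _ := one_mul _
      have h5 := bad_core hJH hJS C σ inc C' b₀ hC' e f u₀ he hh1 hDh hS hw₀ hp hp1 hq hq1 hwq
        (by rw [hcardA]; exact Nat.one_le_two_pow)
      rw [hcardA, hcardG] at h5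
      have h6 := hHL s
      rw [div_le_iff₀ hZ0]
      have h7 : (0 : ℝ) ≤ s * 2 ^ (-((1 - ε) * n)) := by positivity
      calc ∑ x : Fin k → Fin L → Bool, ∑ z : VL k r (Fin L → Bool) G → Bool,
          ind (GZ e f ⌊θ * k⌋₊ z) * (wz p z * Bad x z)
          ≤ ((2 ^ L : ℕ) : ℝ) ^ k * HL k (2 ^ L) (t ^ a) s w₀ ⌊(1 - ε / 4) * k⌋₊ ⌊δ * k⌋₊ d q :=
            h2.trans h5
        _ ≤ ((2 ^ L : ℕ) : ℝ) ^ k * (s * 2 ^ (-((1 - ε) * n)) / 2) :=
            mul_le_mul_of_nonneg_left h6 (by positivity)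
        _ = s * 2 ^ (-((1 - ε) * n)) * ((2 ^ L : ℝ) ^ k * (1 / 2)) := by push_cast; ring
        _ ≤ s * 2 ^ (-((1 - ε) * n)) * Z := mul_le_mul_of_nonneg_left hZ1 h7
    refine le_trans (le_of_eq ?_) hgoal
    exact h1

theorem star_t (hJH : T_JH) (hJS : T_JS) (hSURJ : T_SURJ) (hUNX : T_UNX) (hCOV : T_COV)
    (hGZP : T_GZP) (hSEM : T_SEM) (hENS : T_ENS) (hPARG : T_PARG) : T_STAR := by
  intro ε hε hε1
  obtain ⟨c2, h2⟩ := star_core hJH hJS hSURJ hUNX hCOV hGZP hSEM hENS hPARG 2 le_rfl (by norm_num) ε hε hε1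
  obtain ⟨c3, h3⟩ := star_core hJH hJS hSURJ hUNX hCOV hGZP hSEM hENS hPARG 3 (by norm_num) le_rfl ε hε hε1
  refine ⟨max c2 c3, ?_⟩
  filter_upwards [h2, h3] with n hn2 hn3 d D w m hd hdD hw hwn hm t ht
  have hw2 : c2 * (d + D) * Nat.log 2 n ≤ w := le_trans (by gcongr; exact le_max_left _ _) hw
  have hw3 : c3 * (d + D) * Nat.log 2 n ≤ w := le_trans (by gcongr; exact le_max_right _ _) hw
  rcases ht with rfl | rfl
  · exact hn2 d D w m hd hdD hw2 hwn hm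
  · exact hn3 d D w m hd hdD hw3 hwn hm

end Pool.Agent.H68.GP
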