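import Pool.Agent.H68.GP.Defs

/-!
# Gap-SETH for constant-depth circuits: module targets
-/

namespace Pool.Agent.H68.GP

open Finset Filter Pool.Agent.H68.AC

/-! ## Functions of few coordinates, the code -/

/-- JH: monotonicity, products and polynomials. -/
def T_JH : Prop := ∀ (F : Type) [CommRing F] (k : ℕ) (G : Type),
  (∀ a b, a ≤ b → JH F k G a ≤ JH F k G b) ∧
  (∀ a b (f g : (Fin k → G) → F), f ∈ JH F k G a → g ∈ JH F k G b → f * g ∈ JH F k G (a + b)) ∧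
  (∀ (κ : Type) (v : κ → (Fin k → G) → F) (h D : ℕ) (P : MvPolynomial κ F), (∀ i, v i ∈ JH F k G h) →
    P.totalDegree ≤ D → (fun u => MvPolynomial.eval (fun i => v i u) P) ∈ JH F k G (D * h))

/-- JS: functions of few coordinates do not distinguish the code from its cosets. -/
def T_JS : Prop := ∀ (F : Type) [CommRing F] (k n' t h : ℕ) (G : Type) [AddCommGroup G] [Fintype G]
  (f : Fin k → Fin t → Fin n') (u₀ : Fin k → G) (g : (Fin k → G) → F), Surj G f h → g ∈ JH F k G h →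
  ∑ b : Fin n' → G, g (lin f b) = ∑ b : Fin n' → G, g (u₀ + lin f b)

/-- SURJ: unique neighbours give independence. -/
def T_SURJ : Prop := ∀ (k n' t h : ℕ) (G : Type) [AddCommGroup G] (f : Fin k → Fin t → Fin n'),
  UN f h → Surj G f h

/-- UNX: sparse matrices with unique neighbours exist. -/
def T_UNX : Prop := ∀ θ : ℝ, 0 < θ → θ ≤ 1 → ∃ κ : ℝ, 0 < κ ∧ ∃ K₀ : ℕ, ∀ k : ℕ, K₀ ≤ k →
  ∃ (n' : ℕ) (f : Fin k → Fin 4 → Fin n'), n' ≤ k ∧ (n' : ℝ) ≤ θ * k ∧ UN f ⌊κ * k⌋₊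

/-- COV: there is a word far from all codewords. -/
def T_COV : Prop := ∀ (k n' t g : ℕ) (G : Type) [AddCommGroup G] [Fintype G] [DecidableEq G]
  (f : Fin k → Fin t → Fin n'), Fintype.card G ^ n' * 2 ^ k < Fintype.card G ^ (g + 1) →
  ∃ u : Fin k → G, FarW f g u

/-! ## Random inputs -/

/-- GZP: in a random input every `x`, `b` selects few true variables. -/
def T_GZP : Prop := ∀ (k r n' t g : ℕ) (A G : Type) [DecidableEq A] [Fintype A] [AddCommGroup G]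
  [Fintype G] [DecidableEq G] (e : Fin k → Fin r → Fin k) (f : Fin k → Fin t → Fin n') (p : ℝ), 0 ≤ p →
  p ≤ 1 → ∑ z : VL k r A G → Bool, wz p z * ind (¬ GZ e f g z) ≤
    (Fintype.card A : ℝ) ^ k * (Fintype.card G : ℝ) ^ n' * 2 ^ k * p ^ (g + 1)

/-- SEM: the planted inputs. -/
def T_SEM : Prop := ∀ (k r n' t : ℕ) (A G : Type) [DecidableEq A] [Fintype A] [AddCommGroup G] [Fintype G]
  [DecidableEq G] (e : Fin k → Fin r → Fin k) (f : Fin k → Fin t → Fin n') (x : Fin k → A)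
  (z : VL k r A G → Bool) (b : Fin n' → G),
  (∀ j, yL e x (lin f b) z (pos e x j, lin f b j) = true) ∧
  ∀ (g g' : ℕ) (u₀ : Fin k → G), GZ e f g z → FarW f g' u₀ → ∀ (x' : Fin k → A) (b' : Fin n' → G),
    (univ.filter (fun j => yL e x (u₀ + lin f b) z (pos e x' j, lin f b' j) = true)).card ≤ g + g'

/-! ## The encoding -/

/-- ENG: constraints on `w` variables each, as formulas in `KCNF w`. The constraint `j` at the assignment
`a` is satisfied iff the variable `val j a` of the input `y` is true. -/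
def T_ENG : Prop := ∀ (V : Type) (k n m w : ℕ) (val : Fin k → (Fin n → Bool) → V)
  (W : Fin k → Finset (Fin n)) (v₀ : Fin n), 1 ≤ k → 1 ≤ w → (∀ j, v₀ ∉ W j) → (∀ j, (W j).card = w) →
  (∀ j a a', (∀ i ∈ W j, a i = a' i) → val j a = val j a') →
  ∃ (σ : Fin m × Fin n × Bool → Bool) (inc : Fin m × Fin n × Bool → Inp V),
    (∀ y, KCNF w (enc σ inc y)) ∧
    (∀ y a, a v₀ = true → (∀ j, y (val j a) = true) → ∀ c, ∃ i, enc σ inc y (c, i, a i) = true) ∧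
    (∀ y a, (m / (k * 2 ^ w)) * (univ.filter (fun j => y (val j a) = false)).card ≤
      viol (enc σ inc y) a)

/-- ENS: the encoding of the labelled function. -/
def T_ENS : Prop := ∀ (k r ℓ a' n' n m w : ℕ) (G : Type) [AddCommGroup G] [Fintype G]
  (e : Fin k → Fin r → Fin k) (f : Fin k → Fin 4 → Fin n'), 1 ≤ k → 1 ≤ w → Fintype.card G ≤ 2 ^ a' →
  k * ℓ + n' * a' + 1 ≤ n → (r + 1) * ℓ + 4 * a' ≤ w → w < n →
  ∃ (σ : Fin m × Fin n × Bool → Bool) (inc : Fin m × Fin n × Bool → Inp (VL k r (Fin ℓ → Bool) G)),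
    (∀ y, KCNF w (enc σ inc y)) ∧
    (∀ y, (∃ (x : Fin k → Fin ℓ → Bool) (b : Fin n' → G), ∀ j, y (pos e x j, lin f b j) = true) →
      Satisfiable (enc σ inc y)) ∧
    (∀ y (g : ℕ), (∀ (x : Fin k → Fin ℓ → Bool) (b : Fin n' → G),
      (univ.filter (fun j => y (pos e x j, lin f b j) = true)).card ≤ g) →
      ∀ a, (m / (k * 2 ^ w)) * (k - g) ≤ viol (enc σ inc y) a)

/-- ENC: conversion of circuits. -/
def T_ENC : Prop := ∀ (I V : Type) [Fintype I] (s d : ℕ) (C : Circuit I s) (σ : I → Bool)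
  (inc : I → Inp V), C.DepthLE d → ∃ (C' : Ckt V s d) (b : Fin s → Bool), ∀ y g,
    (C'.val y g = b g ↔ C.Holds (enc σ inc y) g)

/-! ## The circuit -/

/-- BLL: the probability of the bad event for a set of labelled constraints. -/
def T_BLL : Prop := ∀ (k r s d : ℕ) (A G : Type) [DecidableEq A] [Fintype A] [DecidableEq G] [Fintype G]
  (C : Ckt (VL k r A G) s d) (w : ℕ) (e : Fin k → Fin r → Fin k) (Λ : Finset (Fin k × G)) (p q : ℝ),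
  1 ≤ w → 0 < p → p ≤ 1 / 2 → 0 < q → q ≤ 1 / 2 → 64 * w * q ≤ p →
  q ^ (d * Λ.card) * ∑ x : Fin k → A, ∑ R : Fin d → PA (VL k r A G),
    Wt q p R * ind (∃ g, EB C w (KL e x Λ) (KL e x Λ) R g) ≤
    s * (3 / 2 * (Fintype.card A : ℝ) ^ (k - (VSL e Λ).card))

/-- UBL: the union bound. -/
def T_UBL : Prop := ∀ (k r s d : ℕ) (A G : Type) [DecidableEq A] [Fintype A] [DecidableEq G] [Fintype G]
  (C : Ckt (VL k r A G) s d) (w β h : ℕ) (e : Fin k → Fin r → Fin k) (p q : ℝ), 1 ≤ w → 0 < p →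
  p ≤ 1 / 2 → 0 < q → q ≤ 1 / 2 → 64 * w * q ≤ p → 1 ≤ Fintype.card A →
  ∑ x : Fin k → A, ∑ R : Fin d → PA (VL k r A G), Wt q p R * ind (¬ GoodL C e x R β h) ≤
    (Fintype.card A : ℝ) ^ k * HL k (Fintype.card A) (Fintype.card G) s w β h d q

/-- FLL: the first-large argument. -/
def T_FLL : Prop := ∀ (k r s d : ℕ) (A G : Type) [DecidableEq A] [Fintype A] [DecidableEq G] [Fintype G]
  (C : Ckt (VL k r A G) s d) (e : Fin k → Fin r → Fin k) (x : Fin k → A)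
  (R : Fin d → PA (VL k r A G)) (β h : ℕ), Expd e β h → 1 ≤ h → GoodL C e x R β h →
  ∀ g ψ c, IsPath (C.T (KL e x univ) R g) ψ c → (tch e x ψ).card ≤ h

/-- TJ: in a good outcome the gates are sums of functions of at most `h` labels. -/
def T_TJ : Prop := ∀ (F : Type) [CommRing F] (k r s d : ℕ) (A G : Type) [DecidableEq A] [Fintype A]
  [DecidableEq G] [Fintype G] (C : Ckt (VL k r A G) s d) (e : Fin k → Fin r → Fin k) (x : Fin k → A)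
  (R : Fin d → PA (VL k r A G)) (z : VL k r A G → Bool) (β h : ℕ), Expd e β h → 1 ≤ h →
  GoodL C e x R β h → ∀ g,
    (fun u : Fin k → G => cvals F C (yL e x u (fun v => (fd R d v).getD (z v))) g) ∈ JH F k G h

/-! ## Parameters and the theorem -/

/-- PARG: the parameters. -/
def T_PARG : Prop := ∀ (ε θ κ c₀ : ℝ) (Q a' C' K₀ : ℕ), 0 < ε → ε ≤ 1 → 0 < θ → θ ≤ 1 → 0 < κ → 0 < c₀ →
  1 ≤ Q → 2 ≤ C' * θ → ∃ c : ℕ, ∀ᶠ n : ℕ in atTop, ∀ d D : ℕ, 1 ≤ d → (d + D) ^ 2 ≤ n →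
  ∃ (k w r : ℕ) (δ p q : ℝ), K₀ ≤ k ∧ 1 ≤ k ∧ (k : ℝ) ≤ θ * n ∧ k * (Nat.log 2 n + a') + 1 ≤ n ∧
    0 < δ ∧ c₀ ≤ δ * r ∧ (r + 1) * Nat.log 2 n + 4 * a' ≤ c * (d + D) * Nat.log 2 n ∧
    1 ≤ ⌊δ * k⌋₊ ∧ D * ⌊δ * k⌋₊ ≤ ⌊κ * k⌋₊ ∧ 1 ≤ w ∧ 0 < p ∧ p ≤ 1 / 2 ∧ 0 < q ∧ q ≤ 1 / 2 ∧
    64 * w * q ≤ p ∧ (2 ^ Nat.log 2 n : ℝ) ^ k * Q ^ k * 2 ^ k * p ^ (⌊θ * k⌋₊ + 1) ≤ 1 / 2 ∧
    ∀ s : ℕ, HL k (2 ^ Nat.log 2 n) Q s w ⌊(1 - ε / 4) * k⌋₊ ⌊δ * k⌋₊ d q ≤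
      s * 2 ^ (-((1 - ε) * n)) / 2

/-- STAR: families with equal sums. -/
def T_STAR : Prop := ∀ ε : ℝ, 0 < ε → ε ≤ 1 → ∃ c : ℕ, ∀ᶠ n : ℕ in atTop, ∀ d D w m : ℕ, 1 ≤ d →
  (d + D) ^ 2 ≤ n → c * (d + D) * Nat.log 2 n ≤ w → w < n → n * 2 ^ w ≤ m → ∀ t : ℕ, (t = 2 ∨ t = 3) →
  ∃ (Ω B : Type) (_ : Fintype Ω) (_ : Fintype B) (μ : Ω → ℝ)
    (S U : Ω → B → Fin m × Fin n × Bool → Bool), (∀ ω, 0 ≤ μ ω) ∧ ∑ ω, μ ω = 1 ∧
    (∃ j, Fintype.card B = t ^ j) ∧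
    (∀ ω b, KCNF w (S ω b) ∧ Satisfiable (S ω b) ∧ KCNF w (U ω b) ∧ Far ε w (U ω b)) ∧
    ∀ (s : ℕ) (C : Circuit (Fin m × Fin n × Bool) s), C.DepthLE d →
      ∑ ω, μ ω * ind (¬ Fooled C D (S ω) (U ω)) ≤ s * 2 ^ (-((1 - ε) * n))

end Pool.Agent.H68.GP
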