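import Pool.Agent.H68.GP.Bll

/-!
# Gap-SETH for constant-depth circuits: the union bound (UBL)

The proof is that of helper81 (module UNI of the AC project).
-/

namespace Pool.Agent.H68.GP

open Finset Pool.Agent.H68.AC

theorem ubl_t : T_UBL := by
  intro k r s d A G _ _ _ _ C w β h e p q hw hp hp2 hq hq2 h64 hcA
  have hp1 : p ≤ 1 := by linarith
  have hq1 : q ≤ 1 := by linarith
  set N := Fintype.card A with hN
  set Q := Fintype.card G with hQ
  have hN1 : (1 : ℝ) ≤ N := by exact_mod_cast hcA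
  set FF : Finset (Finset (Fin k × G)) :=
    univ.filter (fun Λ => β < (VSL e Λ).card ∧ (Λ.image Prod.fst).card ≤ 2 * h) with hFF
  have hcardΛ : ∀ Λ : Finset (Fin k × G), Λ.card ≤ k * Q := by
    intro Λ
    refine (card_le_univ Λ).trans ?_
    rw [Fintype.card_prod, Fintype.card_fin]
  -- pointwise
  have hpt : ∀ (x : Fin k → A) (R : Fin d → PA (VL k r A G)),
      ind (¬ GoodL C e x R β h) ≤ ∑ Λ : Finset (Fin k × G), ind (∃ g, w < (C.T (KL e x Λ) R g).depth) +
        ∑ Λ ∈ FF, ind (∃ g, EB C w (KL e x Λ) (KL e x Λ) R g) := by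
    intro x R
    have h2 : 0 ≤ ∑ Λ : Finset (Fin k × G), ind (∃ g, w < (C.T (KL e x Λ) R g).depth) :=
      sum_nonneg fun _ _ => ind_nonneg _
    have h3 : 0 ≤ ∑ Λ ∈ FF, ind (∃ g, EB C w (KL e x Λ) (KL e x Λ) R g) :=
      sum_nonneg fun _ _ => ind_nonneg _
    by_cases hall2 : GoodL C e x R β h
    · rw [ind_false (not_not.2 hall2)]
      linarith
    rw [ind_true hall2]
    have hGB := hall2
    unfold GoodL at hGB
    push Not at hGB
    obtain ⟨Λ, hH1, hH2, g, π, hπ, hall⟩ := hGB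
    by_cases hd : ∃ g, w < (C.T (KL e x Λ) R g).depth
    · have : ind (∃ g, w < (C.T (KL e x Λ) R g).depth) ≤
          ∑ Λ : Finset (Fin k × G), ind (∃ g, w < (C.T (KL e x Λ) R g).depth) :=
        single_le_sum (f := fun Λ => ind (∃ g, w < (C.T (KL e x Λ) R g).depth))
          (fun _ _ => ind_nonneg _) (mem_univ Λ)
      rw [ind_true hd] at this
      linarith
    · push Not at hd
      have hE : ∃ g, EB C w (KL e x Λ) (KL e x Λ) R g := by
        refine ⟨g, ?_, π, hπ, hall⟩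
        intro c hc
        rw [Ckt.mem_cht] at hc
        obtain ⟨⟨b, a⟩, _, rfl⟩ := hc
        rcases a with i | g'
        · refine le_trans ?_ hw
          simp only [Ckt.stree, Sum.elim_inl]
          cases i <;> simp [Inp.tree, DT.depth]
        · exact hd g'
      have hHF : Λ ∈ FF := by
        simp only [hFF, mem_filter, mem_univ, true_and]
        exact ⟨hH1, hH2⟩
      have : ind (∃ g, EB C w (KL e x Λ) (KL e x Λ) R g) ≤
          ∑ Λ ∈ FF, ind (∃ g, EB C w (KL e x Λ) (KL e x Λ) R g) :=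
        single_le_sum (f := fun Λ => ind (∃ g, EB C w (KL e x Λ) (KL e x Λ) R g))
          (fun _ _ => ind_nonneg _) hHF
      rw [ind_true hE] at this
      linarith
  have hWn : ∀ R : Fin d → PA (VL k r A G), 0 ≤ Wt q p R := fun R =>
    Pool.Agent.H68.AC.Wt_nonneg hq.le hq1 hp.le hp1 R
  -- for one x
  have hx : ∀ x : Fin k → A, ∑ R : Fin d → PA (VL k r A G), Wt q p R *
      ind (¬ GoodL C e x R β h) ≤ 2 ^ (k * Q) * (s * (3 / 2 * 16 ^ (k * Q) / 2 ^ (w + 1))) +
      ∑ Λ ∈ FF, ∑ R : Fin d → PA (VL k r A G), Wt q p R *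
        ind (∃ g, EB C w (KL e x Λ) (KL e x Λ) R g) := by
    intro x
    have h0 : ∑ R : Fin d → PA (VL k r A G), Wt q p R * ind (¬ GoodL C e x R β h) ≤
        ∑ R : Fin d → PA (VL k r A G), Wt q p R *
        (∑ Λ : Finset (Fin k × G), ind (∃ g, w < (C.T (KL e x Λ) R g).depth) +
        ∑ Λ ∈ FF, ind (∃ g, EB C w (KL e x Λ) (KL e x Λ) R g)) := by
      apply sum_le_sum; intro R _
      exact mul_le_mul_of_nonneg_left (hpt x R) (hWn R)
    have h2 : ∑ R : Fin d → PA (VL k r A G), Wt q p R *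
        (∑ Λ : Finset (Fin k × G), ind (∃ g, w < (C.T (KL e x Λ) R g).depth)) ≤
        2 ^ (k * Q) * (s * (3 / 2 * 16 ^ (k * Q) / 2 ^ (w + 1))) := by
      simp_rw [mul_sum]
      rw [sum_comm]
      have : ∀ Λ ∈ (univ : Finset (Finset (Fin k × G))), ∑ R : Fin d → PA (VL k r A G), Wt q p R *
          ind (∃ g, w < (C.T (KL e x Λ) R g).depth) ≤ s * (3 / 2 * 16 ^ (k * Q) / 2 ^ (w + 1)) := by
        intro Λ _
        refine (Pool.Agent.H68.AC.A (VL k r A G) s d C w (KL e x Λ) p q hw hp hp2 hq hq2 h64).trans ?_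
        have hc : (KL e x Λ).card ≤ k * Q := by rw [KL_card]; exact hcardΛ Λ
        have : (16 : ℝ) ^ (KL e x Λ).card ≤ 16 ^ (k * Q) := pow_le_pow_right₀ (by norm_num) hc
        gcongr
      refine (sum_le_sum this).trans (le_of_eq ?_)
      rw [sum_const, nsmul_eq_mul, card_univ, Fintype.card_finset, Fintype.card_prod, Fintype.card_fin]
      push_cast
      ring
    refine h0.trans ?_
    simp only [mul_add, sum_add_distrib]
    have h3 : ∑ R : Fin d → PA (VL k r A G), Wt q p R *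
        (∑ Λ ∈ FF, ind (∃ g, EB C w (KL e x Λ) (KL e x Λ) R g)) =
        ∑ Λ ∈ FF, ∑ R : Fin d → PA (VL k r A G), Wt q p R *
          ind (∃ g, EB C w (KL e x Λ) (KL e x Λ) R g) := by
      simp_rw [mul_sum]
      rw [sum_comm]
    rw [h3]
    gcongr
  -- the second sum
  have h3 : ∑ x : Fin k → A, ∑ Λ ∈ FF, ∑ R : Fin d → PA (VL k r A G), Wt q p R *
        ind (∃ g, EB C w (KL e x Λ) (KL e x Λ) R g) ≤
      (N : ℝ) ^ k * (2 ^ (k * Q) * (s * (3 / 2 * (1 / q) ^ (d * (2 * h * Q)) / N ^ (β + 1)))) := by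
    rw [sum_comm]
    have hH : ∀ Λ ∈ FF, ∑ x : Fin k → A, ∑ R : Fin d → PA (VL k r A G), Wt q p R *
        ind (∃ g, EB C w (KL e x Λ) (KL e x Λ) R g) ≤
        (N : ℝ) ^ k * (s * (3 / 2 * (1 / q) ^ (d * (2 * h * Q)) / N ^ (β + 1))) := by
      intro Λ hHF
      simp only [hFF, mem_filter, mem_univ, true_and] at hHF
      have hb := bll_t k r s d A G C w e Λ p q hw hp hp2 hq hq2 h64
      have hqp : 0 < q ^ (d * Λ.card) := by positivity
      have h1 : ∑ x : Fin k → A, ∑ R : Fin d → PA (VL k r A G), Wt q p R *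
          ind (∃ g, EB C w (KL e x Λ) (KL e x Λ) R g) ≤
          (1 / q) ^ (d * Λ.card) * (s * (3 / 2 * (N : ℝ) ^ (k - (VSL e Λ).card))) := by
        rw [one_div, inv_pow]
        rw [inv_mul_eq_div, le_div_iff₀ hqp, mul_comm]
        exact hb
      refine h1.trans ?_
      have hq1' : 1 ≤ 1 / q := by rw [le_div_iff₀ hq]; linarith
      have hΛ : Λ.card ≤ 2 * h * Q := by
        have h4 : Λ ⊆ (Λ.image Prod.fst) ×ˢ (univ : Finset G) := by
          intro c hc
          exact mem_product.2 ⟨mem_image_of_mem _ hc, mem_univ _⟩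
        refine (card_le_card h4).trans ?_
        rw [card_product, card_univ]
        exact Nat.mul_le_mul_right _ hHF.2
      have h2 : (1 / q) ^ (d * Λ.card) ≤ (1 / q) ^ (d * (2 * h * Q)) :=
        pow_le_pow_right₀ hq1' (Nat.mul_le_mul_left _ hΛ)
      have hVk : (VSL e Λ).card ≤ k := (card_le_univ _).trans (by simp)
      have h4 : (N : ℝ) ^ (k - (VSL e Λ).card) ≤ (N : ℝ) ^ k / N ^ (β + 1) := by
        rw [le_div_iff₀ (by positivity), ← pow_add]
        exact pow_le_pow_right₀ hN1 (by omega)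
      calc (1 / q) ^ (d * Λ.card) * (s * (3 / 2 * (N : ℝ) ^ (k - (VSL e Λ).card)))
          ≤ (1 / q) ^ (d * (2 * h * Q)) * (s * (3 / 2 * ((N : ℝ) ^ k / N ^ (β + 1)))) := by gcongr
        _ = _ := by ring
    refine (sum_le_sum hH).trans ?_
    rw [sum_const, nsmul_eq_mul]
    have hc : (FF.card : ℝ) ≤ 2 ^ (k * Q) := by
      have : FF.card ≤ 2 ^ (k * Q) := (card_le_univ _).trans (by
        rw [Fintype.card_finset, Fintype.card_prod, Fintype.card_fin])
      exact_mod_cast this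
    have hpos : 0 ≤ (N : ℝ) ^ k * (s * (3 / 2 * (1 / q) ^ (d * (2 * h * Q)) / N ^ (β + 1))) := by
      positivity
    calc (FF.card : ℝ) * ((N : ℝ) ^ k * (s * (3 / 2 * (1 / q) ^ (d * (2 * h * Q)) / N ^ (β + 1))))
        ≤ 2 ^ (k * Q) * ((N : ℝ) ^ k * (s * (3 / 2 * (1 / q) ^ (d * (2 * h * Q)) / N ^ (β + 1)))) :=
          mul_le_mul_of_nonneg_right hc hpos
      _ = _ := by ring
  -- sum over x
  have hsum := sum_le_sum (fun x (_ : x ∈ (univ : Finset (Fin k → A))) => hx x)
  rw [sum_add_distrib, sum_const, card_univ, Fintype.card_fun, Fintype.card_fin, ← hN,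
    nsmul_eq_mul] at hsum
  push_cast at hsum
  unfold HL
  rw [mul_add]
  linarith

end Pool.Agent.H68.GP
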